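import Mathlib

/-!
# The misère partizan domination game

Players: `true` is Alice, `false` is Bob.
-/

set_option autoImplicit false

namespace Pool.Agent.helper13.MD

/-- The vertex `u` is dominated by the set `S` of the selected vertices. -/
def Dominated {V : Type} (G : SimpleGraph V) (S : Finset V) (u : V) : Prop :=
  u ∈ S ∨ ∃ w ∈ S, G.Adj u w

/-- The player `P` may select the vertex `v`: it has the colour of the player, it is not selected
yet, and its closed neighbourhood contains a vertex which is not yet dominated. -/
def Legal {V : Type} (G : SimpleGraph V) (c : V → Bool) (P : Bool) (S : Finset V) (v : V) : Prop :=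
  c v = P ∧ v ∉ S ∧ ∃ u : V, (u = v ∨ G.Adj v u) ∧ ¬ Dominated G S u

/-- In the position with the set `S` of selected vertices the player `P`, who is to move, has a
winning strategy in the misère game: a player without legal move wins; otherwise the player needs
a move after which the opponent, who is to move, has no winning strategy. -/
def MoverWins {V : Type} [Fintype V] [DecidableEq V] (G : SimpleGraph V) (c : V → Bool) (P : Bool)
    (S : Finset V) : Prop :=
  (∀ v : V, ¬ Legal G c P S v) ∨
    ∃ v : V, ∃ _h : Legal G c P S v, ¬ MoverWins G c (!P) (insert v S)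
termination_by Fintype.card V - S.card
decreasing_by
  have h1 := _h.2.1
  have h2 := Finset.card_insert_of_notMem h1
  have h3 := Finset.card_le_univ (insert v S)
  omega

/-- The rule for the winner: the player to move has a block of `x` vertices, the other player a
block of `y` vertices. -/
def Rule (x y : ℕ) : Prop :=
  (x / 3 ≤ y / 3 ∧ ¬ (x = 1 ∧ y = 0) ∧ ¬ (x = 2 ∧ y = 0) ∧ ¬ (x = 1 ∧ y = 1) ∧
    ¬ (x = 3 ∧ y = 3)) ∨
  (x = 3 ∧ y = 1) ∨ (x = 3 ∧ y = 2) ∨ (x = 4 ∧ y = 1) ∨ (x = 6 ∧ y = 3)

/-- The colouring of the path with `a + b` vertices whose first `a` vertices have the colour of Alice and whose last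
`b` vertices have the colour of Bob. -/
def twoBlock (a b : ℕ) (i : Fin (a + b)) : Bool := decide (i.val < a)

end Pool.Agent.helper13.MD
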