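import Mathlib

/-!
# The race of the covering numbers

`l` is the length of the undominated interval of the winning player `W` next to the two contested
vertices, `cw`, `cl` say whether the contested vertices of `W` and of the other player `L` are
undominated, `r`, `r1`, `r2` are the covering numbers of `L`.
-/

set_option autoImplicit false

namespace Pool.Agent.helper13.MD

/-- need of `W` -/
def nW (l : ℕ) (cw cl : Bool) : ℕ :=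
  if cl then (l + 4) / 3 else if cw then (l + 3) / 3 else (l + 2) / 3

/-- need of `L` -/
def nL (cw cl : Bool) (r r1 r2 : ℕ) : ℕ := if cw then r2 else if cl then r1 else r

/-- constraints between the covering numbers -/
def Val (r r1 r2 : ℕ) : Prop := r ≤ r1 ∧ r1 ≤ r2 ∧ r2 ≤ r + 1 ∧ 1 ≤ r1

/-- `W` is to move and wins -/
def RW (l : ℕ) (cw cl : Bool) (r r1 r2 : ℕ) : Prop :=
  nW l cw cl ≤ nL cw cl r r1 r2 ∧
  ¬ (l = 0 ∧ cw = false ∧ cl = true ∧ r = 0 ∧ r1 = 1) ∧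
  ¬ (l = 0 ∧ cw = true ∧ cl = false ∧ r = 0 ∧ r1 = 1) ∧
  ¬ (l = 2 ∧ cw = false ∧ cl = true ∧ r = 1 ∧ r1 = 2) ∧
  ¬ (l = 2 ∧ cw = true ∧ cl = true ∧ r = 1 ∧ r1 = 1 ∧ r2 = 2)

/-- `L` is to move and `W` wins -/
def RL (l : ℕ) (cw cl : Bool) (r r1 r2 : ℕ) : Prop :=
  (nW l cw cl + 1 ≤ nL cw cl r r1 r2 ∧
  ¬ (l = 0 ∧ cw = false ∧ cl = true ∧ r = 1 ∧ r1 = 2) ∧
  ¬ (l = 0 ∧ cw = true ∧ cl = false ∧ r = 1 ∧ r2 = 2) ∧
  ¬ (l = 0 ∧ cw = true ∧ cl = true ∧ r = 1 ∧ r1 = 1 ∧ r2 = 2) ∧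
  ¬ (l = 2 ∧ cw = false ∧ cl = true ∧ r = 2 ∧ r1 = 3) ∧
  ¬ (l = 2 ∧ cw = true ∧ cl = true ∧ r = 2 ∧ r1 = 2 ∧ r2 = 3)) ∨
  (l = 0 ∧ r = 0 ∧ cw = true ∧ cl = false) ∨ (l = 0 ∧ r = 0 ∧ cw = false ∧ cl = true)

theorem stepW {l : ℕ} {cw cl : Bool} {r r1 r2 : ℕ} (hv : Val r r1 r2) (h : RW l cw cl r r1 r2) :
    (l = 0 ∧ cw = false ∧ cl = false) ∨
    (1 ≤ l ∧ RL (l - 3) cw cl r r1 r2) ∨
    (3 ≤ l ∧ RL (l - 2) cw cl r r1 r2) ∨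
    ((1 ≤ l ∨ cw = true) ∧ (cl = false ∨ l ≤ 2) ∧ RL (l - 2) false cl r r1 r2) ∨
    ((1 ≤ l ∨ cw = true ∨ cl = true) ∧ RL (l - 1) false false r r1 r2) := by
  unfold Val at hv
  unfold RW nW nL at h
  unfold RL nW nL
  cases cw <;> cases cl <;> simp at h ⊢ <;> omega

theorem stepL {l : ℕ} {cw cl : Bool} {r r1 r2 r' r1' r2' : ℕ} (hv : Val r r1 r2)
    (hv' : Val r' r1' r2') (h : RL l cw cl r r1 r2) (h0 : r' ≤ r) (h0' : r ≤ r' + 1)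
    (h1 : r1' ≤ r1) (h1' : r1 ≤ r1' + 1) (h2 : r2' ≤ r2) (h2' : r2 ≤ r2' + 1) (hr : 1 ≤ r) :
    RW l cw cl r' r1' r2' := by
  unfold Val at hv hv'
  unfold RL nW nL at h
  unfold RW nW nL
  cases cw <;> cases cl <;> simp at h ⊢ <;> omega

theorem stepL2 {l : ℕ} {cw cl : Bool} {r r1 r2 r' r1' r2' : ℕ} (hv : Val r r1 r2)
    (hv' : Val r' r1' r2') (h : RL l cw cl r r1 r2) (h0 : r' ≤ r) (h0' : r1 ≤ r' + 1)
    (h1 : r1' ≤ r1) (h1' : r1 ≤ r1' + 1) (h2 : r2' ≤ r2) (h2' : r2 ≤ r2' + 1)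
    (hr : 1 ≤ r ∨ cl = true) :
    RW l cw false r' r1' r2' := by
  unfold Val at hv hv'
  unfold RL nW nL at h
  unfold RW nW nL
  cases cw <;> cases cl <;> simp at h hr ⊢ <;> omega

theorem stepL3 {l : ℕ} {cw cl : Bool} {r r1 r2 r' r1' r2' : ℕ} (hv : Val r r1 r2)
    (hv' : Val r' r1' r2') (h : RL l cw cl r r1 r2) (h0 : r' ≤ r) (h0' : r2 ≤ r' + 1)
    (h1 : r1' ≤ r1) (h1' : r1 ≤ r1' + 1) (h2 : r2' ≤ r2) (h2' : r2 ≤ r2' + 1)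
    (hr : 1 ≤ r ∨ cl = true ∨ cw = true) :
    RW l false false r' r1' r2' := by
  unfold Val at hv hv'
  unfold RL nW nL at h
  unfold RW nW nL
  cases cw <;> cases cl <;> simp at h hr ⊢ <;> omega

theorem RL_pure {l r r1 r2 : ℕ} (h : RL l false false r r1 r2) : (l + 2) / 3 + 1 ≤ r := by
  unfold RL nW nL at h
  simp at h
  exact h

theorem notStuckL {l : ℕ} {cw cl : Bool} {r r1 r2 : ℕ} (h : RL l cw cl r r1 r2) :
    ¬ (r = 0 ∧ cw = false ∧ cl = false) := by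
  unfold RL nW nL at h
  rintro ⟨h1, h2, h3⟩
  subst h2 h3
  simp at h
  omega

end Pool.Agent.helper13.MD
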