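import Mathlib
import Pool.Agent.helper13.MD.Abs

/-!
# The race on the path `1, …, n`; the centres `1, …, a` belong to `W`, the others to `L`
-/

set_option autoImplicit false

namespace Pool.Agent.helper13.MD

open Finset

/-- the closed neighbourhood -/
def N (k : ℕ) : Finset ℕ := Icc (k - 1) (k + 1)

theorem mem_N {k x : ℕ} : x ∈ N k ↔ k - 1 ≤ x ∧ x ≤ k + 1 := by unfold N; exact mem_Icc

def Cov (a n : ℕ) (X : Finset ℕ) (k : ℕ) : Prop :=
  ∃ T : Finset ℕ, T ⊆ Icc (a + 1) n ∧ T.card ≤ k ∧ ∀ x ∈ X, ∃ t ∈ T, x ∈ N t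

noncomputable def cv (a n : ℕ) (X : Finset ℕ) : ℕ := sInf {k | Cov a n X k}

theorem cv_le {a n : ℕ} {X : Finset ℕ} {k : ℕ} (h : Cov a n X k) : cv a n X ≤ k := Nat.sInf_le h

theorem cv_spec {a n : ℕ} (han : a + 1 ≤ n) {X : Finset ℕ} (hX : X ⊆ Icc a n) :
    Cov a n X (cv a n X) := by
  apply Nat.sInf_mem (s := {k | Cov a n X k})
  refine ⟨_, Icc (a + 1) n, subset_refl _, le_rfl, fun x hx => ?_⟩
  have h1 := mem_Icc.mp (hX hx)
  by_cases h2 : x = a
  · exact ⟨a + 1, mem_Icc.mpr ⟨le_rfl, han⟩, mem_N.mpr (by omega)⟩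
  · exact ⟨x, mem_Icc.mpr (by omega), mem_N.mpr (by omega)⟩

theorem cv_mono {a n : ℕ} (han : a + 1 ≤ n) {X Y : Finset ℕ} (hXY : X ⊆ Y) (hY : Y ⊆ Icc a n) :
    cv a n X ≤ cv a n Y := by
  obtain ⟨T, h1, h2, h3⟩ := cv_spec han hY
  exact cv_le ⟨T, h1, h2, fun x hx => h3 x (hXY hx)⟩

theorem cv_step {a n : ℕ} (han : a + 1 ≤ n) {X Y : Finset ℕ} {t : ℕ} (ht : t ∈ Icc (a + 1) n)
    (hXY : X ⊆ Y ∪ N t) (hY : Y ⊆ Icc a n) : cv a n X ≤ cv a n Y + 1 := by
  obtain ⟨T, h1, h2, h3⟩ := cv_spec han hY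
  refine cv_le ⟨insert t T, ?_, ?_, fun x hx => ?_⟩
  · exact insert_subset ht h1
  · exact (card_insert_le _ _).trans (by omega)
  · rcases mem_union.mp (hXY hx) with h | h
    · obtain ⟨s, hs, hxs⟩ := h3 x h
      exact ⟨s, mem_insert_of_mem hs, hxs⟩
    · exact ⟨t, mem_insert_self _ _, h⟩

theorem cv_pos {a n : ℕ} (han : a + 1 ≤ n) {X : Finset ℕ} (hX : X ⊆ Icc a n) (hne : X.Nonempty) :
    1 ≤ cv a n X := by
  obtain ⟨T, h1, h2, h3⟩ := cv_spec han hX
  obtain ⟨x, hx⟩ := hne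
  obtain ⟨t, ht, _⟩ := h3 x hx
  have := card_pos.mpr ⟨t, ht⟩
  omega

theorem cv_empty (a n : ℕ) : cv a n ∅ = 0 := by
  have : cv a n ∅ ≤ 0 := cv_le ⟨∅, by simp, by simp, by simp⟩
  omega

/-- the private undominated vertices of `L` -/
def XL (a : ℕ) (U : Finset ℕ) : Finset ℕ := U.filter (fun x => a + 2 ≤ x)

noncomputable def R0 (a n : ℕ) (U : Finset ℕ) : ℕ := cv a n (XL a U)
noncomputable def R1 (a n : ℕ) (U : Finset ℕ) : ℕ := cv a n (insert (a + 1) (XL a U))
noncomputable def R2 (a n : ℕ) (U : Finset ℕ) : ℕ := cv a n (insert a (insert (a + 1) (XL a U)))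

theorem XL_sub {a n : ℕ} {U : Finset ℕ} (hU : U ⊆ Icc 1 n) : XL a U ⊆ Icc a n := by
  intro x hx
  obtain ⟨h1, h2⟩ := mem_filter.mp hx
  have := mem_Icc.mp (hU h1)
  exact mem_Icc.mpr (by omega)

theorem XL1_sub {a n : ℕ} (han : a + 1 ≤ n) {U : Finset ℕ} (hU : U ⊆ Icc 1 n) :
    insert (a + 1) (XL a U) ⊆ Icc a n :=
  insert_subset (mem_Icc.mpr (by omega)) (XL_sub hU)

theorem XL2_sub {a n : ℕ} (han : a + 1 ≤ n) {U : Finset ℕ} (hU : U ⊆ Icc 1 n) :
    insert a (insert (a + 1) (XL a U)) ⊆ Icc a n :=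
  insert_subset (mem_Icc.mpr (by omega)) (XL1_sub han hU)

theorem val_R {a n : ℕ} (han : a + 1 ≤ n) {U : Finset ℕ} (hU : U ⊆ Icc 1 n) :
    Val (R0 a n U) (R1 a n U) (R2 a n U) := by
  refine ⟨cv_mono han (subset_insert _ _) (XL1_sub han hU),
    cv_mono han (subset_insert _ _) (XL2_sub han hU), ?_,
    cv_pos han (XL1_sub han hU) ⟨_, mem_insert_self _ _⟩⟩
  apply cv_step han (t := a + 1) (mem_Icc.mpr ⟨le_rfl, han⟩) _ (XL_sub hU)
  intro x hx
  simp only [mem_insert] at hx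
  rw [mem_union, mem_N]
  rcases hx with h | h | h
  · right; omega
  · right; omega
  · left; exact h

/-- the position on the side of `W` -/
structure St (a n : ℕ) (U : Finset ℕ) (l : ℕ) (cw cl : Bool) : Prop where
  sub : U ⊆ Icc 1 n
  hl : l + 1 ≤ a
  left : ∀ k, 1 ≤ k → k + 1 ≤ a → (k ∈ U ↔ a ≤ k + l)
  cw : a ∈ U ↔ cw = true
  cl : a + 1 ∈ U ↔ cl = true

/-- no contested vertex is left and `m` moves of `W` are enough -/
def Pure (a n : ℕ) (U : Finset ℕ) (m : ℕ) : Prop :=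
  U ⊆ Icc 1 n ∧ a ∉ U ∧ a + 1 ∉ U ∧
    ∃ T : Finset ℕ, T ⊆ Icc 1 a ∧ T.card ≤ m ∧ ∀ x ∈ U, x < a → ∃ t ∈ T, x ∈ N t

def IW (a n : ℕ) (U : Finset ℕ) : Prop :=
  (∃ l cw cl, St a n U l cw cl ∧ RW l cw cl (R0 a n U) (R1 a n U) (R2 a n U)) ∨
    Pure a n U (R0 a n U)

def IL (a n : ℕ) (U : Finset ℕ) : Prop :=
  (∃ l cw cl, St a n U l cw cl ∧ RL l cw cl (R0 a n U) (R1 a n U) (R2 a n U)) ∨
    ∃ m, m + 1 ≤ R0 a n U ∧ Pure a n U m

theorem cover_interval {a s e : ℕ} (hs : 1 ≤ s) (he : e + 1 ≤ a) :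
    ∃ T : Finset ℕ, T ⊆ Icc 1 a ∧ T.card ≤ (e + 1 - s + 2) / 3 ∧
      ∀ x, s ≤ x → x ≤ e → ∃ t ∈ T, x ∈ N t := by
  refine ⟨(range ((e + 1 - s + 2) / 3)).image (fun i => s + 1 + 3 * i), ?_, ?_, ?_⟩
  · intro t ht
    obtain ⟨i, hi, rfl⟩ := mem_image.mp ht
    rw [mem_range] at hi
    rw [mem_Icc]
    omega
  · exact card_image_le.trans (by rw [card_range])
  · intro x h1 h2
    refine ⟨s + 1 + 3 * ((x - s) / 3), mem_image.mpr ⟨(x - s) / 3, ?_, rfl⟩, ?_⟩
    · rw [mem_range]; omega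
    · rw [mem_N]; omega

theorem XL_sdiff {a k : ℕ} (hk : k ≤ a) (U : Finset ℕ) : XL a (U \ N k) = XL a U := by
  ext x
  simp only [XL, mem_filter, mem_sdiff, mem_N]
  constructor
  · rintro ⟨⟨h1, _⟩, h2⟩; exact ⟨h1, h2⟩
  · rintro ⟨h1, h2⟩; exact ⟨⟨h1, by omega⟩, h2⟩

/-- a move of `W` -/
theorem moveW {a n : ℕ} {U : Finset ℕ} {l l' : ℕ} {cw cl cw' cl' : Bool} {k : ℕ}
    (h : St a n U l cw cl) (hk1 : 1 ≤ k) (hka : k ≤ a) (hl' : l' ≤ l)
    (hleft : ∀ x, 1 ≤ x → x + 1 ≤ a → ((a ≤ x + l ∧ ¬ (k - 1 ≤ x ∧ x ≤ k + 1)) ↔ a ≤ x + l'))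
    (hcw : (cw = true ∧ ¬ (k - 1 ≤ a ∧ a ≤ k + 1)) ↔ cw' = true)
    (hcl : (cl = true ∧ ¬ (k - 1 ≤ a + 1 ∧ a + 1 ≤ k + 1)) ↔ cl' = true)
    (hR : RL l' cw' cl' (R0 a n U) (R1 a n U) (R2 a n U)) : IL a n (U \ N k) := by
  left
  refine ⟨l', cw', cl', ⟨?_, ?_, ?_, ?_, ?_⟩, ?_⟩
  · exact sdiff_subset.trans h.sub
  · have := h.hl; omega
  · intro x hx1 hxa
    rw [mem_sdiff, h.left x hx1 hxa, mem_N]
    exact hleft x hx1 hxa
  · rw [mem_sdiff, h.cw, mem_N]; exact hcw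
  · rw [mem_sdiff, h.cl, mem_N]; exact hcl
  · unfold R0 R1 R2
    rw [XL_sdiff hka]
    exact hR

/-- a move of `W` after which no contested vertex is left -/
theorem moveP {a n : ℕ} {U : Finset ℕ} {l m e : ℕ} {cw cl : Bool} {k : ℕ}
    (h : St a n U l cw cl) (hka : k ≤ a) (he : e + 1 ≤ a)
    (hm : (e + 1 - (a - l) + 2) / 3 ≤ m)
    (hU : ∀ x, x ∈ U → x ∉ N k → x < a → x ≤ e) (h1 : a ∉ U \ N k) (h2 : a + 1 ∉ U \ N k)
    (hR : m + 1 ≤ R0 a n U) : IL a n (U \ N k) := by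
  right
  have hl := h.hl
  obtain ⟨T, hT1, hT2, hT3⟩ := cover_interval (a := a) (s := a - l) (e := e) (by omega) he
  refine ⟨m, ?_, sdiff_subset.trans h.sub, h1, h2, T, hT1, hT2.trans hm, ?_⟩
  · unfold R0
    rw [XL_sdiff hka]
    exact hR
  · intro x hx hxa
    rw [mem_sdiff] at hx
    have h3 := (mem_Icc.mp (h.sub hx.1)).1
    have h4 := (h.left x h3 (by omega)).mp hx.1
    exact hT3 x (by omega) (hU x hx.1 hx.2 hxa)

theorem realW {a n : ℕ} (ha : 4 ≤ a) (han : a + 1 ≤ n) {U : Finset ℕ} (h : IW a n U) :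
    (∀ k, 1 ≤ k → k ≤ a → ¬ ∃ x ∈ U, x ∈ N k) ∨
    ∃ k, 1 ≤ k ∧ k ≤ a ∧ (∃ x ∈ U, x ∈ N k) ∧ IL a n (U \ N k) := by
  rcases h with ⟨l, cw, cl, hS, hR⟩ | ⟨hP1, hP2, hP3, T, hP4, hP5, hP6⟩
  swap
  · by_cases hex : ∃ x ∈ U, x < a
    · right
      obtain ⟨x, hx, hxa⟩ := hex
      obtain ⟨t, ht, hxt⟩ := hP6 x hx hxa
      have h1 := mem_Icc.mp (hP4 ht)
      refine ⟨t, h1.1, h1.2, ⟨x, hx, hxt⟩, Or.inr ⟨(T.erase t).card, ?_,
        sdiff_subset.trans hP1, ?_, ?_, T.erase t, (erase_subset _ _).trans hP4, le_rfl, ?_⟩⟩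
      · have h2 : (T.erase t).card + 1 = T.card := card_erase_add_one ht
        rw [h2]
        unfold R0 at hP5 ⊢
        rw [XL_sdiff h1.2]
        exact hP5
      · exact fun hc => hP2 (mem_sdiff.mp hc).1
      · exact fun hc => hP3 (mem_sdiff.mp hc).1
      · intro y hy hya
        rw [mem_sdiff] at hy
        obtain ⟨s, hs, hys⟩ := hP6 y hy.1 hya
        refine ⟨s, mem_erase.mpr ⟨?_, hs⟩, hys⟩
        rintro rfl
        exact hy.2 hys
    · left
      rintro k hk1 hka ⟨x, hx, hxk⟩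
      rw [mem_N] at hxk
      have h2 : x ≠ a := by rintro rfl; exact hP2 hx
      have h3 : x ≠ a + 1 := by rintro rfl; exact hP3 hx
      exact hex ⟨x, hx, by omega⟩
  have hl := hS.hl
  rcases stepW (val_R han hS.sub) hR with h1 | h1 | h1 | h1 | h1
  · left
    obtain ⟨rfl, rfl, rfl⟩ := h1
    rintro k hk1 hka ⟨x, hx, hxk⟩
    rw [mem_N] at hxk
    have hx1 := (mem_Icc.mp (hS.sub hx)).1
    have h2 : x ≠ a := by
      rintro rfl
      exact absurd (hS.cw.mp hx) (by decide)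
    have h3 : x ≠ a + 1 := by
      rintro rfl
      exact absurd (hS.cl.mp hx) (by decide)
    have h4 := (hS.left x hx1 (by omega)).mp hx
    omega
  · right
    obtain ⟨h1, h2⟩ := h1
    by_cases h3 : 3 ≤ l
    · refine ⟨a - l + 1, by omega, by omega, ⟨a - l, ?_, mem_N.mpr (by omega)⟩, ?_⟩
      · exact (hS.left (a - l) (by omega) (by omega)).mpr (by omega)
      · refine moveW hS (by omega) (by omega) (l' := l - 3) (by omega) ?_ ?_ ?_ h2
        · intro x hx1 hxa; omega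
        · constructor
          · rintro ⟨h4, _⟩; exact h4
          · intro h4; exact ⟨h4, by omega⟩
        · constructor
          · rintro ⟨h4, _⟩; exact h4
          · intro h4; exact ⟨h4, by omega⟩
    · refine ⟨a - 2, by omega, by omega, ⟨a - 1, ?_, mem_N.mpr (by omega)⟩, ?_⟩
      · exact (hS.left (a - 1) (by omega) (by omega)).mpr (by omega)
      · refine moveW hS (by omega) (by omega) (l' := l - 3) (by omega) ?_ ?_ ?_ h2
        · intro x hx1 hxa; omega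
        · constructor
          · rintro ⟨h4, _⟩; exact h4
          · intro h4; exact ⟨h4, by omega⟩
        · constructor
          · rintro ⟨h4, _⟩; exact h4
          · intro h4; exact ⟨h4, by omega⟩
  · right
    obtain ⟨h1, h2⟩ := h1
    refine ⟨a - l, by omega, by omega, ⟨a - l, ?_, mem_N.mpr (by omega)⟩, ?_⟩
    · exact (hS.left (a - l) (by omega) (by omega)).mpr (by omega)
    · refine moveW hS (by omega) (by omega) (l' := l - 2) (by omega) ?_ ?_ ?_ h2
      · intro x hx1 hxa; omega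
      · constructor
        · rintro ⟨h4, _⟩; exact h4
        · intro h4; exact ⟨h4, by omega⟩
      · constructor
        · rintro ⟨h4, _⟩; exact h4
        · intro h4; exact ⟨h4, by omega⟩
  · right
    obtain ⟨h1, h3, h2⟩ := h1
    refine ⟨a - 1, by omega, by omega, ?_, ?_⟩
    · rcases h1 with h1 | h1
      · exact ⟨a - 1, (hS.left (a - 1) (by omega) (by omega)).mpr (by omega),
          mem_N.mpr (by omega)⟩
      · exact ⟨a, hS.cw.mpr h1, mem_N.mpr (by omega)⟩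
    · rcases h3 with rfl | h3
      · refine moveP hS (e := a - 3) (m := (l - 2 + 2) / 3) (by omega) (by omega) (by omega)
          ?_ ?_ ?_ (RL_pure h2)
        · intro x _ hx hxa
          rw [mem_N] at hx
          omega
        · rw [mem_sdiff, mem_N]; omega
        · rw [mem_sdiff]
          rintro ⟨h4, _⟩
          exact absurd (hS.cl.mp h4) (by decide)
      · refine moveW hS (by omega) (by omega) (l' := l - 2) (cw' := false) (cl' := cl)
          (by omega) ?_ ?_ ?_ h2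
        · intro x hx1 hxa; omega
        · constructor
          · rintro ⟨_, h4⟩; omega
          · intro h4; exact absurd h4 (by decide)
        · constructor
          · rintro ⟨h4, _⟩; exact h4
          · intro h4; exact ⟨h4, by omega⟩
  · right
    obtain ⟨h1, h2⟩ := h1
    refine ⟨a, by omega, by omega, ?_, ?_⟩
    · rcases h1 with h1 | h1 | h1
      · exact ⟨a - 1, (hS.left (a - 1) (by omega) (by omega)).mpr (by omega),
          mem_N.mpr (by omega)⟩
      · exact ⟨a, hS.cw.mpr h1, mem_N.mpr (by omega)⟩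
      · exact ⟨a + 1, hS.cl.mpr h1, mem_N.mpr (by omega)⟩
    · refine moveP hS (e := a - 2) (m := (l - 1 + 2) / 3) (by omega) (by omega) (by omega)
        ?_ ?_ ?_ (RL_pure h2)
      · intro x _ hx hxa
        rw [mem_N] at hx
        omega
      · rw [mem_sdiff, mem_N]; omega
      · rw [mem_sdiff, mem_N]; omega

/-- change of the covering numbers under a move of `L` -/
theorem changeR {a n : ℕ} (han : a + 1 ≤ n) {U : Finset ℕ} (hU : U ⊆ Icc 1 n) {k : ℕ}
    (hk : k ∈ Icc (a + 1) n) :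
    R0 a n (U \ N k) ≤ R0 a n U ∧ R0 a n U ≤ R0 a n (U \ N k) + 1 ∧
    R1 a n (U \ N k) ≤ R1 a n U ∧ R1 a n U ≤ R1 a n (U \ N k) + 1 ∧
    R2 a n (U \ N k) ≤ R2 a n U ∧ R2 a n U ≤ R2 a n (U \ N k) + 1 ∧
    (k ≤ a + 2 → R1 a n U ≤ R0 a n (U \ N k) + 1) ∧
    (k ≤ a + 1 → R2 a n U ≤ R0 a n (U \ N k) + 1) := by
  have hU' : U \ N k ⊆ Icc 1 n := sdiff_subset.trans hU
  have hsub : XL a (U \ N k) ⊆ XL a U := filter_subset_filter _ sdiff_subset
  have hsup : XL a U ⊆ XL a (U \ N k) ∪ N k := by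
    intro x hx
    obtain ⟨h1, h2⟩ := mem_filter.mp hx
    by_cases h3 : x ∈ N k
    · exact mem_union_right _ h3
    · exact mem_union_left _ (mem_filter.mpr ⟨mem_sdiff.mpr ⟨h1, h3⟩, h2⟩)
  have hk' := mem_Icc.mp hk
  refine ⟨cv_mono han hsub (XL_sub hU), cv_step han hk hsup (XL_sub hU'),
    cv_mono han (insert_subset_insert _ hsub) (XL1_sub han hU),
    cv_step han hk ?_ (XL1_sub han hU'),
    cv_mono han (insert_subset_insert _ (insert_subset_insert _ hsub)) (XL2_sub han hU),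
    cv_step han hk ?_ (XL2_sub han hU'), fun hk2 => cv_step han hk ?_ (XL_sub hU'),
    fun hk1 => cv_step han hk ?_ (XL_sub hU')⟩
  · intro x hx
    rcases mem_insert.mp hx with h | h
    · exact mem_union_left _ (mem_insert.mpr (Or.inl h))
    · rcases mem_union.mp (hsup h) with h | h
      · exact mem_union_left _ (mem_insert_of_mem h)
      · exact mem_union_right _ h
  · intro x hx
    rcases mem_insert.mp hx with h | h
    · exact mem_union_left _ (mem_insert.mpr (Or.inl h))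
    rcases mem_insert.mp h with h | h
    · exact mem_union_left _ (mem_insert_of_mem (mem_insert.mpr (Or.inl h)))
    · rcases mem_union.mp (hsup h) with h | h
      · exact mem_union_left _ (mem_insert_of_mem (mem_insert_of_mem h))
      · exact mem_union_right _ h
  · intro x hx
    rcases mem_insert.mp hx with h | h
    · exact mem_union_right _ (mem_N.mpr (by omega))
    · exact hsup h
  · intro x hx
    rcases mem_insert.mp hx with h | h
    · exact mem_union_right _ (mem_N.mpr (by omega))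
    rcases mem_insert.mp h with h | h
    · exact mem_union_right _ (mem_N.mpr (by omega))
    · exact hsup h

theorem realL {a n : ℕ} (ha : 4 ≤ a) (han : a + 1 ≤ n) {U : Finset ℕ} (h : IL a n U) :
    (∃ k, a + 1 ≤ k ∧ k ≤ n ∧ ∃ x ∈ U, x ∈ N k) ∧
    ∀ k, a + 1 ≤ k → k ≤ n → (∃ x ∈ U, x ∈ N k) → IW a n (U \ N k) := by
  rcases h with ⟨l, cw, cl, hS, hR⟩ | ⟨m, hm, hP1, hP2, hP3, T, hP4, hP5, hP6⟩
  swap
  · constructor
    · have h4 : (XL a U).Nonempty := by
        by_contra hne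
        rw [not_nonempty_iff_eq_empty] at hne
        unfold R0 at hm
        rw [hne, cv_empty] at hm
        omega
      obtain ⟨x, hx⟩ := h4
      obtain ⟨h5, h6⟩ := mem_filter.mp hx
      have h7 := mem_Icc.mp (hP1 h5)
      exact ⟨x, by omega, h7.2, x, h5, mem_N.mpr (by omega)⟩
    · intro k hk1 hkn _
      have hk : k ∈ Icc (a + 1) n := mem_Icc.mpr ⟨hk1, hkn⟩
      obtain ⟨_, c2, _⟩ := changeR han hP1 hk
      refine Or.inr ⟨sdiff_subset.trans hP1, fun hc => hP2 (mem_sdiff.mp hc).1,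
        fun hc => hP3 (mem_sdiff.mp hc).1, T, hP4, by omega, ?_⟩
      intro x hx hxa
      exact hP6 x (mem_sdiff.mp hx).1 hxa
  have hU := hS.sub
  have hv := val_R han hU
  constructor
  · have h1 := notStuckL hR
    by_cases h2 : cw = true
    · exact ⟨a + 1, le_rfl, han, a, hS.cw.mpr h2, mem_N.mpr (by omega)⟩
    by_cases h3 : cl = true
    · exact ⟨a + 1, le_rfl, han, a + 1, hS.cl.mpr h3, mem_N.mpr (by omega)⟩
    have h4 : (XL a U).Nonempty := by
      by_contra hne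
      rw [not_nonempty_iff_eq_empty] at hne
      apply h1
      refine ⟨?_, by simpa using h2, by simpa using h3⟩
      unfold R0
      rw [hne, cv_empty]
    obtain ⟨x, hx⟩ := h4
    obtain ⟨h5, h6⟩ := mem_filter.mp hx
    have h7 := mem_Icc.mp (hU h5)
    exact ⟨x, by omega, h7.2, x, h5, mem_N.mpr (by omega)⟩
  · intro k hk1 hkn hleg
    have hk : k ∈ Icc (a + 1) n := mem_Icc.mpr ⟨hk1, hkn⟩
    obtain ⟨c1, c2, c3, c4, c5, c6, c7, c8⟩ := changeR han hU hk
    have hU' : U \ N k ⊆ Icc 1 n := sdiff_subset.trans hU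
    have hv' := val_R han hU'
    have hleft : ∀ x, 1 ≤ x → x + 1 ≤ a → (x ∈ U \ N k ↔ a ≤ x + l) := by
      intro x hx1 hxa
      rw [mem_sdiff, hS.left x hx1 hxa, mem_N]
      constructor
      · rintro ⟨h4, _⟩; exact h4
      · intro h4; exact ⟨h4, by omega⟩
    obtain ⟨x, hxU, hxk⟩ := hleg
    rw [mem_N] at hxk
    have hpos : a + 2 ≤ x → 1 ≤ R0 a n U := fun hx =>
      cv_pos han (XL_sub hU) ⟨x, mem_filter.mpr ⟨hxU, hx⟩⟩
    rcases (by omega : k = a + 1 ∨ k = a + 2 ∨ a + 3 ≤ k) with h1 | h1 | h1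
    · refine Or.inl ⟨l, false, false, ⟨hU', hS.hl, hleft, ?_, ?_⟩, ?_⟩
      · rw [mem_sdiff, mem_N]
        constructor
        · rintro ⟨_, h4⟩; omega
        · intro h4; exact absurd h4 (by decide)
      · rw [mem_sdiff, mem_N]
        constructor
        · rintro ⟨_, h4⟩; omega
        · intro h4; exact absurd h4 (by decide)
      · refine stepL3 hv hv' hR c1 (c8 (by omega)) c3 c4 c5 c6 ?_
        rcases (by omega : x = a ∨ x = a + 1 ∨ a + 2 ≤ x) with h2 | h2 | h2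
        · right; right; rw [h2] at hxU; exact hS.cw.mp hxU
        · right; left; rw [h2] at hxU; exact hS.cl.mp hxU
        · left; exact hpos h2
    · refine Or.inl ⟨l, cw, false, ⟨hU', hS.hl, hleft, ?_, ?_⟩, ?_⟩
      · rw [mem_sdiff, mem_N, hS.cw]
        constructor
        · rintro ⟨h4, _⟩; exact h4
        · intro h4; exact ⟨h4, by omega⟩
      · rw [mem_sdiff, mem_N]
        constructor
        · rintro ⟨_, h4⟩; omega
        · intro h4; exact absurd h4 (by decide)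
      · refine stepL2 hv hv' hR c1 (c7 (by omega)) c3 c4 c5 c6 ?_
        rcases (by omega : x = a + 1 ∨ a + 2 ≤ x) with h2 | h2
        · right; rw [h2] at hxU; exact hS.cl.mp hxU
        · left; exact hpos h2
    · refine Or.inl ⟨l, cw, cl, ⟨hU', hS.hl, hleft, ?_, ?_⟩, ?_⟩
      · rw [mem_sdiff, mem_N, hS.cw]
        constructor
        · rintro ⟨h4, _⟩; exact h4
        · intro h4; exact ⟨h4, by omega⟩
      · rw [mem_sdiff, mem_N, hS.cl]
        constructor
        · rintro ⟨h4, _⟩; exact h4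
        · intro h4; exact ⟨h4, by omega⟩
      · exact stepL hv hv' hR c1 c2 c3 c4 c5 c6 (hpos (by omega))

/-- packing lower bound for the initial position -/
theorem R2_init {a b : ℕ} (hb : 1 ≤ b) : b / 3 + 1 ≤ R2 a (a + b) (Icc 1 (a + b)) := by
  have han : a + 1 ≤ a + b := by omega
  obtain ⟨T, h1, h2, h3⟩ := cv_spec han (XL2_sub han (subset_refl (Icc 1 (a + b))))
  have hmem : ∀ i ∈ range (b / 3 + 1), ∃ t ∈ T, a + 3 * i ∈ N t := by
    intro i hi
    rw [mem_range] at hi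
    apply h3
    rcases Nat.eq_zero_or_pos i with h | h
    · rw [h]; exact mem_insert_self _ _
    · exact mem_insert_of_mem (mem_insert_of_mem (mem_filter.mpr
        ⟨mem_Icc.mpr (by omega), by omega⟩))
  choose! f hf using hmem
  have h4 : (range (b / 3 + 1)).card ≤ T.card := by
    apply card_le_card_of_injOn f
    · intro i hi; exact (hf i hi).1
    · intro i hi j hj e
      have h5 := mem_N.mp (hf i hi).2
      have h6 := mem_N.mp (hf j hj).2
      rw [← e] at h6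
      omega
  rw [card_range] at h4
  exact h4.trans h2

theorem init_St {a b : ℕ} (ha : 4 ≤ a) (hb : 1 ≤ b) :
    St a (a + b) (Icc 1 (a + b)) (a - 1) true true := by
  refine ⟨subset_refl _, by omega, ?_, ?_, ?_⟩
  · intro k hk1 hka
    rw [mem_Icc]
    omega
  · rw [mem_Icc]
    exact ⟨fun _ => rfl, fun _ => by omega⟩
  · rw [mem_Icc]
    exact ⟨fun _ => rfl, fun _ => by omega⟩

theorem init_IW {a b : ℕ} (ha : 4 ≤ a) (hb : 1 ≤ b) (h : a / 3 ≤ b / 3) :
    IW a (a + b) (Icc 1 (a + b)) := by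
  refine Or.inl ⟨a - 1, true, true, init_St ha hb, ?_⟩
  have h1 := R2_init (a := a) hb
  unfold RW nW nL
  simp
  omega

theorem init_IL {a b : ℕ} (ha : 4 ≤ a) (hb : 1 ≤ b) (h : a / 3 < b / 3) :
    IL a (a + b) (Icc 1 (a + b)) := by
  refine Or.inl ⟨a - 1, true, true, init_St ha hb, ?_⟩
  have h1 := R2_init (a := a) hb
  unfold RL nW nL
  simp
  omega

end Pool.Agent.helper13.MD
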