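import Mathlib
import Pool.Agent.helper13.MD.Geo
import Pool.Agent.helper13.MD.Def

/-!
# From the path `1, …, n` to the game
-/

set_option autoImplicit false

namespace Pool.Agent.helper13.MD

open Finset

theorem moverWins_iff {V : Type} [Fintype V] [DecidableEq V] (G : SimpleGraph V) (c : V → Bool)
    (P : Bool) (S : Finset V) : MoverWins G c P S ↔ (∀ v : V, ¬ Legal G c P S v) ∨
    ∃ v : V, Legal G c P S v ∧ ¬ MoverWins G c (!P) (insert v S) := by
  rw [MoverWins]
  constructor
  · rintro (h | ⟨v, h1, h2⟩)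
    · exact Or.inl h
    · exact Or.inr ⟨v, h1, h2⟩
  · rintro (h | ⟨v, h1, h2⟩)
    · exact Or.inl h
    · exact Or.inr ⟨v, h1, h2⟩

open Classical in
/-- the undominated positions -/
noncomputable def UU {V : Type} [Fintype V] (G : SimpleGraph V) (pos : V → ℕ) (S : Finset V) :
    Finset ℕ := (univ.filter (fun u => ¬ Dominated G S u)).image pos

/-- a path in the order `1, …, n` -/
structure Lay {V : Type} [Fintype V] [DecidableEq V] (G : SimpleGraph V) (c : V → Bool) (P : Bool)
    (pos : V → ℕ) (a n : ℕ) : Prop where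
  inj : Function.Injective pos
  surj : ∀ k, 1 ≤ k → k ≤ n → ∃ v, pos v = k
  rg : ∀ v, 1 ≤ pos v ∧ pos v ≤ n
  adj : ∀ u v, G.Adj u v ↔ pos u + 1 = pos v ∨ pos v + 1 = pos u
  col : ∀ v, c v = P ↔ pos v ≤ a

variable {V : Type} [Fintype V] [DecidableEq V] {G : SimpleGraph V} {c : V → Bool} {P : Bool}
  {pos : V → ℕ} {a n : ℕ}

theorem mem_UU (h : Lay G c P pos a n) {S : Finset V} {v : V} :
    pos v ∈ UU G pos S ↔ ¬ Dominated G S v := by
  classical
  unfold UU
  rw [mem_image]
  constructor
  · rintro ⟨u, hu, e⟩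
    rw [← h.inj e]
    exact (mem_filter.mp hu).2
  · intro hv
    exact ⟨v, mem_filter.mpr ⟨mem_univ _, hv⟩, rfl⟩

theorem UU_pos {S : Finset V} {x : ℕ} (hx : x ∈ UU G pos S) : ∃ u, pos u = x ∧ ¬ Dominated G S u := by
  classical
  unfold UU at hx
  obtain ⟨u, hu, e⟩ := mem_image.mp hx
  exact ⟨u, e, (mem_filter.mp hu).2⟩

theorem near (h : Lay G c P pos a n) (u v : V) : pos u ∈ N (pos v) ↔ u = v ∨ G.Adj v u := by
  have h1 := (h.rg v).1
  have h2 := (h.rg u).1
  rw [mem_N, h.adj]
  constructor
  · intro h3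
    by_cases h4 : pos u = pos v
    · exact Or.inl (h.inj h4)
    · right; omega
  · rintro (rfl | h3)
    · omega
    · omega

theorem legal_iff (h : Lay G c P pos a n) {Q : Bool} {S : Finset V} {v : V} :
    Legal G c Q S v ↔ c v = Q ∧ ∃ x ∈ UU G pos S, x ∈ N (pos v) := by
  constructor
  · rintro ⟨h1, _, u, h3, h4⟩
    exact ⟨h1, pos u, (mem_UU h).mpr h4, (near h u v).mpr h3⟩
  · rintro ⟨h1, x, hx, hxv⟩
    obtain ⟨u, rfl, hu⟩ := UU_pos hx
    have h2 := (near h u v).mp hxv
    refine ⟨h1, fun hv => hu ?_, u, h2, hu⟩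
    rcases h2 with rfl | h2
    · exact Or.inl hv
    · exact Or.inr ⟨v, hv, h2.symm⟩

theorem UU_insert (h : Lay G c P pos a n) (S : Finset V) (v : V) :
    UU G pos (insert v S) = UU G pos S \ N (pos v) := by
  ext x
  rw [mem_sdiff]
  constructor
  · intro hx
    obtain ⟨u, rfl, hu⟩ := UU_pos hx
    rw [mem_UU h, near h]
    refine ⟨fun hc => hu ?_, fun hc => hu ?_⟩
    · rcases hc with hc | ⟨w, hw, hc⟩
      · exact Or.inl (mem_insert_of_mem hc)
      · exact Or.inr ⟨w, mem_insert_of_mem hw, hc⟩
    · rcases hc with rfl | hc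
      · exact Or.inl (mem_insert_self _ _)
      · exact Or.inr ⟨v, mem_insert_self _ _, hc.symm⟩
  · rintro ⟨hx, hxv⟩
    obtain ⟨u, rfl, hu⟩ := UU_pos hx
    rw [near h] at hxv
    rw [mem_UU h]
    rintro (hc | ⟨w, hw, hc⟩)
    · rcases mem_insert.mp hc with rfl | hc
      · exact hxv (Or.inl rfl)
      · exact hu (Or.inl hc)
    · rcases mem_insert.mp hw with rfl | hw
      · exact hxv (Or.inr hc.symm)
      · exact hu (Or.inr ⟨w, hw, hc⟩)

theorem UU_empty (h : Lay G c P pos a n) : UU G pos ∅ = Icc 1 n := by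
  ext x
  rw [mem_Icc]
  constructor
  · intro hx
    obtain ⟨u, rfl, _⟩ := UU_pos hx
    exact h.rg u
  · rintro ⟨h1, h2⟩
    obtain ⟨v, rfl⟩ := h.surj x h1 h2
    rw [mem_UU h]
    unfold Dominated
    simp

theorem main (h : Lay G c P pos a n) (ha : 4 ≤ a) (han : a + 1 ≤ n) (S : Finset V) :
    (IW a n (UU G pos S) → MoverWins G c P S) ∧
      (IL a n (UU G pos S) → ¬ MoverWins G c (!P) S) := by
  obtain ⟨m, hm⟩ : ∃ m, Fintype.card V - S.card = m := ⟨_, rfl⟩
  induction m using Nat.strong_induction_on generalizing S with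
  | _ m ih =>
    have hlt : ∀ (Q : Bool) (v : V), Legal G c Q S v →
        Fintype.card V - (insert v S).card < m := by
      intro Q v hv
      have h2 := Finset.card_insert_of_notMem hv.2.1
      have h3 := Finset.card_le_univ (insert v S)
      omega
    constructor
    · intro hI
      rw [moverWins_iff]
      rcases realW ha han hI with h1 | ⟨k, hk1, hka, hx, h1⟩
      · left
        intro v hv
        rw [legal_iff h] at hv
        exact h1 (pos v) (h.rg v).1 ((h.col v).mp hv.1) hv.2
      · right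
        obtain ⟨v, rfl⟩ := h.surj k hk1 (by omega)
        have hleg : Legal G c P S v := (legal_iff h).mpr ⟨(h.col v).mpr hka, hx⟩
        refine ⟨v, hleg, ?_⟩
        apply (ih _ (hlt P v hleg) _ rfl).2
        rw [UU_insert h]
        exact h1
    · intro hI
      obtain ⟨⟨k, hk1, hkn, hx⟩, h2⟩ := realL ha han hI
      rw [moverWins_iff]
      rintro (h3 | ⟨v, hleg, h3⟩)
      · obtain ⟨v, rfl⟩ := h.surj k (by omega) hkn
        apply h3 v
        rw [legal_iff h]
        refine ⟨?_, hx⟩
        have h4 : ¬ c v = P := fun hc => by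
          have := (h.col v).mp hc
          omega
        revert h4
        cases c v <;> cases P <;> simp
      · apply h3
        rw [Bool.not_not]
        have h5 := (legal_iff h).mp hleg
        have h4 : ¬ c v = P := by
          rw [h5.1]
          cases P <;> simp
        apply (ih _ (hlt _ v hleg) _ rfl).1
        rw [UU_insert h]
        refine h2 (pos v) ?_ (h.rg v).2 h5.2
        by_contra hc
        exact h4 ((h.col v).mpr (by omega))

theorem layA (a b : ℕ) : Lay (SimpleGraph.pathGraph (a + b)) (twoBlock a b) true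
    (fun i => i.val + 1) a (a + b) := by
  refine ⟨?_, ?_, ?_, ?_, ?_⟩
  · intro i j h
    simp only at h
    exact Fin.ext (by omega)
  · intro k h1 h2
    exact ⟨⟨k - 1, by omega⟩, by simp only; omega⟩
  · intro v
    have := v.isLt
    omega
  · intro u v
    rw [SimpleGraph.pathGraph_adj]
    omega
  · intro v
    unfold twoBlock
    rw [decide_eq_true_iff]
    omega

theorem layB (a b : ℕ) : Lay (SimpleGraph.pathGraph (a + b)) (twoBlock a b) false
    (fun i => a + b - i.val) b (b + a) := by
  refine ⟨?_, ?_, ?_, ?_, ?_⟩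
  · intro i j h
    simp only at h
    have h1 := i.isLt
    have h2 := j.isLt
    exact Fin.ext (by omega)
  · intro k h1 h2
    exact ⟨⟨a + b - k, by omega⟩, by simp only; omega⟩
  · intro v
    have := v.isLt
    omega
  · intro u v
    rw [SimpleGraph.pathGraph_adj]
    have h1 := u.isLt
    have h2 := v.isLt
    omega
  · intro v
    have h1 := v.isLt
    unfold twoBlock
    rw [decide_eq_false_iff_not]
    omega

theorem alice (a b : ℕ) (ha : 4 ≤ a) (hb : 4 ≤ b) :
    MoverWins (SimpleGraph.pathGraph (a + b)) (twoBlock a b) true ∅ ↔ a / 3 ≤ b / 3 := by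
  constructor
  · intro h
    by_contra hc
    have h1 := (main (layB a b) hb (by omega) ∅).2
    rw [UU_empty (layB a b)] at h1
    exact h1 (init_IL hb (by omega) (by omega)) h
  · intro h
    have h1 := (main (layA a b) ha (by omega) ∅).1
    rw [UU_empty (layA a b)] at h1
    exact h1 (init_IW ha (by omega) h)

theorem bob (a b : ℕ) (ha : 4 ≤ a) (hb : 4 ≤ b) :
    MoverWins (SimpleGraph.pathGraph (a + b)) (twoBlock a b) false ∅ ↔ b / 3 ≤ a / 3 := by
  constructor
  · intro h
    by_contra hc
    have h1 := (main (layA a b) ha (by omega) ∅).2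
    rw [UU_empty (layA a b)] at h1
    exact h1 (init_IL ha (by omega) (by omega)) h
  · intro h
    have h1 := (main (layB a b) hb (by omega) ∅).1
    rw [UU_empty (layB a b)] at h1
    exact h1 (init_IW hb (by omega) h)

end Pool.Agent.helper13.MD
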