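import Mathlib
import Pool.Agent.helper13.MD.Trans

/-!
# Small blocks
-/

set_option autoImplicit false

namespace Pool.Agent.helper13.MD

open Finset

variable {V : Type} [Fintype V] [DecidableEq V] {G : SimpleGraph V} {c : V → Bool} {P : Bool}
  {pos : V → ℕ} {a n : ℕ}

theorem mainGen (h : Lay G c P pos a n) (han : a ≤ n) (A B : Finset ℕ → Prop)
    (hW : ∀ U, A U → (∀ k, 1 ≤ k → k ≤ a → ¬ ∃ x ∈ U, x ∈ N k) ∨
      ∃ k, 1 ≤ k ∧ k ≤ a ∧ (∃ x ∈ U, x ∈ N k) ∧ B (U \ N k))
    (hL : ∀ U, B U → (∃ k, a + 1 ≤ k ∧ k ≤ n ∧ ∃ x ∈ U, x ∈ N k) ∧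
      ∀ k, a + 1 ≤ k → k ≤ n → (∃ x ∈ U, x ∈ N k) → A (U \ N k)) (S : Finset V) :
    (A (UU G pos S) → MoverWins G c P S) ∧ (B (UU G pos S) → ¬ MoverWins G c (!P) S) := by
  obtain ⟨m, hm⟩ : ∃ m, Fintype.card V - S.card = m := ⟨_, rfl⟩
  induction m using Nat.strong_induction_on generalizing S with
  | _ m ih =>
    have hlt : ∀ (Q : Bool) (v : V), Legal G c Q S v →
        Fintype.card V - (insert v S).card < m := by
      intro Q v hv
      have h2 := Finset.card_insert_of_notMem hv.2.1
      have h3 := Finset.card_le_univ (insert v S)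
      omega
    constructor
    · intro hI
      rw [moverWins_iff]
      rcases hW _ hI with h1 | ⟨k, hk1, hka, hx, h1⟩
      · left
        intro v hv
        rw [legal_iff h] at hv
        exact h1 (pos v) (h.rg v).1 ((h.col v).mp hv.1) hv.2
      · right
        obtain ⟨v, rfl⟩ := h.surj k hk1 (by omega)
        have hleg : Legal G c P S v := (legal_iff h).mpr ⟨(h.col v).mpr hka, hx⟩
        refine ⟨v, hleg, ?_⟩
        apply (ih _ (hlt P v hleg) _ rfl).2
        rw [UU_insert h]
        exact h1
    · intro hI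
      obtain ⟨⟨k, hk1, hkn, hx⟩, h2⟩ := hL _ hI
      rw [moverWins_iff]
      rintro (h3 | ⟨v, hleg, h3⟩)
      · obtain ⟨v, rfl⟩ := h.surj k (by omega) hkn
        apply h3 v
        rw [legal_iff h]
        refine ⟨?_, hx⟩
        have h4 : ¬ c v = P := fun hc => by
          have := (h.col v).mp hc
          omega
        revert h4
        cases c v <;> cases P <;> simp
      · apply h3
        rw [Bool.not_not]
        have h5 := (legal_iff h).mp hleg
        have h4 : ¬ c v = P := by
          rw [h5.1]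
          cases P <;> simp
        apply (ih _ (hlt _ v hleg) _ rfl).1
        rw [UU_insert h]
        refine h2 (pos v) ?_ (h.rg v).2 h5.2
        by_contra hc
        exact h4 ((h.col v).mpr (by omega))

/-- `m` moves of `W` dominate all that `W` has to dominate -/
def PR (a n : ℕ) (U : Finset ℕ) (m : ℕ) : Prop :=
  U ⊆ Icc 1 n ∧ ∃ T : Finset ℕ, T ⊆ Icc 1 a ∧ T.card ≤ m ∧ ∀ x ∈ U, x ≤ a + 1 → ∃ t ∈ T, x ∈ N t

theorem race (h : Lay G c P pos a n) (han : a + 1 ≤ n) (S : Finset V) :
    (PR a n (UU G pos S) (R0 a n (UU G pos S)) → MoverWins G c P S) ∧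
      ((∃ m, m + 1 ≤ R0 a n (UU G pos S) ∧ PR a n (UU G pos S) m) → ¬ MoverWins G c (!P) S) := by
  apply mainGen h (by omega) (fun U => PR a n U (R0 a n U))
    (fun U => ∃ m, m + 1 ≤ R0 a n U ∧ PR a n U m)
  · rintro U ⟨hP1, T, hP4, hP5, hP6⟩
    by_cases hex : ∃ x ∈ U, x ≤ a + 1
    · right
      obtain ⟨x, hx, hxa⟩ := hex
      obtain ⟨t, ht, hxt⟩ := hP6 x hx hxa
      have h1 := mem_Icc.mp (hP4 ht)
      refine ⟨t, h1.1, h1.2, ⟨x, hx, hxt⟩, (T.erase t).card, ?_,
        sdiff_subset.trans hP1, T.erase t, (erase_subset _ _).trans hP4, le_rfl, ?_⟩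
      · have h2 : (T.erase t).card + 1 = T.card := card_erase_add_one ht
        rw [h2]
        unfold R0 at hP5 ⊢
        rw [XL_sdiff h1.2]
        exact hP5
      · intro y hy hya
        rw [mem_sdiff] at hy
        obtain ⟨s, hs, hys⟩ := hP6 y hy.1 hya
        refine ⟨s, mem_erase.mpr ⟨?_, hs⟩, hys⟩
        rintro rfl
        exact hy.2 hys
    · left
      rintro k hk1 hka ⟨x, hx, hxk⟩
      rw [mem_N] at hxk
      exact hex ⟨x, hx, by omega⟩
  · rintro U ⟨m, hm, hP1, T, hP4, hP5, hP6⟩
    constructor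
    · have h4 : (XL a U).Nonempty := by
        by_contra hne
        rw [not_nonempty_iff_eq_empty] at hne
        unfold R0 at hm
        rw [hne, cv_empty] at hm
        omega
      obtain ⟨x, hx⟩ := h4
      obtain ⟨h5, h6⟩ := mem_filter.mp hx
      have h7 := mem_Icc.mp (hP1 h5)
      exact ⟨x, by omega, h7.2, x, h5, mem_N.mpr (by omega)⟩
    · intro k hk1 hkn _
      have hk : k ∈ Icc (a + 1) n := mem_Icc.mpr ⟨hk1, hkn⟩
      obtain ⟨_, c2, _⟩ := changeR han hP1 hk
      refine ⟨sdiff_subset.trans hP1, T, hP4, by omega, ?_⟩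
      intro x hx hxa
      exact hP6 x (mem_sdiff.mp hx).1 hxa

theorem R0_init {a b : ℕ} (hb : 1 ≤ b) : (b + 1) / 3 ≤ R0 a (a + b) (Icc 1 (a + b)) := by
  have han : a + 1 ≤ a + b := by omega
  obtain ⟨T, h1, h2, h3⟩ := cv_spec han (XL_sub (a := a) (subset_refl (Icc 1 (a + b))))
  have hmem : ∀ i ∈ range ((b + 1) / 3), ∃ t ∈ T, a + 2 + 3 * i ∈ N t := by
    intro i hi
    rw [mem_range] at hi
    apply h3
    exact mem_filter.mpr ⟨mem_Icc.mpr (by omega), by omega⟩
  choose! f hf using hmem
  have h4 : (range ((b + 1) / 3)).card ≤ T.card := by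
    apply card_le_card_of_injOn f
    · intro i hi; exact (hf i hi).1
    · intro i hi j hj e
      have h5 := mem_N.mp (hf i hi).2
      have h6 := mem_N.mp (hf j hj).2
      rw [← e] at h6
      omega
  rw [card_range] at h4
  exact h4.trans h2

theorem small {b : ℕ} (ha1 : 1 ≤ a) (ha3 : a ≤ 3) (hb : 8 ≤ b) (hn : n = a + b)
    (h : Lay G c P pos a n) : MoverWins G c P ∅ ∧ ¬ MoverWins G c (!P) ∅ := by
  subst hn
  have h1 := race h (by omega) ∅
  rw [UU_empty h] at h1
  have h2 := R0_init (a := a) (b := b) (by omega)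
  have h3 : PR a (a + b) (Icc 1 (a + b)) 2 := by
    refine ⟨subset_refl _, ?_⟩
    rcases (by omega : a = 1 ∨ a = 2 ∨ a = 3) with rfl | rfl | rfl
    · refine ⟨{1}, by simp, by simp, fun x hx hxa => ⟨1, by simp, ?_⟩⟩
      rw [mem_N]; omega
    · refine ⟨{2}, by simp, by simp, fun x hx hxa => ⟨2, by simp, ?_⟩⟩
      rw [mem_Icc] at hx
      rw [mem_N]; omega
    · refine ⟨{2, 3}, ?_, by simp, fun x hx hxa => ?_⟩
      · intro t ht
        simp only [mem_insert, mem_singleton] at ht
        rw [mem_Icc]; omega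
      · rw [mem_Icc] at hx
        by_cases h4 : x ≤ 3
        · exact ⟨2, by simp, mem_N.mpr (by omega)⟩
        · exact ⟨3, by simp, mem_N.mpr (by omega)⟩
  constructor
  · apply h1.1
    obtain ⟨h4, T, h5, h6, h7⟩ := h3
    exact ⟨h4, T, h5, by omega, h7⟩
  · exact h1.2 ⟨2, by omega, h3⟩

/-- the second player wins if the first has vertices and the second has none -/
theorem none {V : Type} [Fintype V] [DecidableEq V] {G : SimpleGraph V} {c : V → Bool} {P : Bool}
    (hc : ∀ v, c v ≠ P) (S : Finset V) : MoverWins G c P S := by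
  rw [moverWins_iff]
  left
  intro v hv
  exact hc v hv.1

theorem none' {V : Type} [Fintype V] [DecidableEq V] {G : SimpleGraph V} {c : V → Bool} {P : Bool}
    (hc : ∀ v, c v ≠ P) (v₀ : V) : ¬ MoverWins G c (!P) ∅ := by
  rw [moverWins_iff]
  rintro (h | ⟨v, _, h⟩)
  · apply h v₀
    refine ⟨?_, by simp, v₀, Or.inl rfl, ?_⟩
    · have := hc v₀
      revert this
      cases c v₀ <;> cases P <;> simp
    · unfold Dominated
      simp
  · rw [Bool.not_not] at h
    exact h (none hc _)

/-- evaluation of small games -/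
def ev (a n : ℕ) : ℕ → Bool → List ℕ → Bool
  | 0, _, _ => true
  | (f + 1), Q, U =>
    let ks := (if Q then List.range' 1 a else List.range' (a + 1) (n - a)).filter
      (fun k => U.any (fun x => decide (k - 1 ≤ x) && decide (x ≤ k + 1)))
    ks.isEmpty || ks.any (fun k =>
      !(ev a n f (!Q) (U.filter (fun x => !(decide (k - 1 ≤ x) && decide (x ≤ k + 1))))))

theorem ev_iff (h : Lay G c true pos a n) (han : a ≤ n) (f : ℕ) (Q : Bool) (S : Finset V)
    (U : List ℕ) (hU : ∀ x, x ∈ U ↔ x ∈ UU G pos S) (hf : Fintype.card V - S.card < f) :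
    ev a n f Q U = true ↔ MoverWins G c Q S := by
  induction f generalizing Q S U with
  | zero => omega
  | succ f ih =>
    -- the legal moves
    set ks := (if Q then List.range' 1 a else List.range' (a + 1) (n - a)).filter
      (fun k => U.any (fun x => decide (k - 1 ≤ x) && decide (x ≤ k + 1))) with hks
    have hmem : ∀ k, k ∈ ks ↔ ∃ v, pos v = k ∧ Legal G c Q S v := by
      intro k
      rw [hks, List.mem_filter, List.any_eq_true]
      constructor
      · rintro ⟨h1, x, hx, hxk⟩
        have hxk' : k - 1 ≤ x ∧ x ≤ k + 1 := by simpa using hxk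
        have h2 : 1 ≤ k ∧ k ≤ n ∧ (Q = true ↔ k ≤ a) := by
          cases Q
          · simp only [Bool.false_eq_true, if_false, List.mem_range'_1] at h1
            refine ⟨by omega, by omega, by simp; omega⟩
          · simp only [if_true, List.mem_range'_1] at h1
            refine ⟨by omega, by omega, by simp; omega⟩
        obtain ⟨v, rfl⟩ := h.surj k h2.1 h2.2.1
        refine ⟨v, rfl, (legal_iff h).mpr ⟨?_, x, (hU x).mp hx, mem_N.mpr hxk'⟩⟩
        have h3 := h.col v
        rw [← h2.2.2] at h3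
        revert h3
        cases c v <;> cases Q <;> simp
      · rintro ⟨v, rfl, hleg⟩
        obtain ⟨h1, x, hx, hxk⟩ := (legal_iff h).mp hleg
        have h3 := h.col v
        have h4 := h.rg v
        refine ⟨?_, x, (hU x).mpr hx, by simpa using mem_N.mp hxk⟩
        rw [h1] at h3
        cases Q
        · simp only [Bool.false_eq_true, if_false, List.mem_range'_1]
          have h5 : ¬ pos v ≤ a := fun hc => absurd (h3.mpr hc) (by decide)
          omega
        · simp only [if_true, List.mem_range'_1]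
          have h5 := h3.mp rfl
          omega
    have hstep : ∀ v, Legal G c Q S v → (ev a n f (!Q)
        (U.filter (fun x => !(decide (pos v - 1 ≤ x) && decide (x ≤ pos v + 1)))) = true ↔
        MoverWins G c (!Q) (insert v S)) := by
      intro v hleg
      apply ih
      · intro x
        have e : (!(decide (pos v - 1 ≤ x) && decide (x ≤ pos v + 1))) = true ↔
            ¬ (pos v - 1 ≤ x ∧ x ≤ pos v + 1) := by
          rw [Bool.not_eq_true', Bool.and_eq_false_iff, decide_eq_false_iff_not,
            decide_eq_false_iff_not]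
          tauto
        rw [List.mem_filter, UU_insert h, mem_sdiff, mem_N, hU x, e]
      · have h2 := Finset.card_insert_of_notMem hleg.2.1
        have h3 := Finset.card_le_univ (insert v S)
        omega
    rw [moverWins_iff]
    change (ks.isEmpty || ks.any (fun k =>
      !(ev a n f (!Q) (U.filter (fun x => !(decide (k - 1 ≤ x) && decide (x ≤ k + 1))))))) = true ↔ _
    rw [Bool.or_eq_true, List.any_eq_true]
    constructor
    · rintro (h1 | ⟨k, hk, h1⟩)
      · left
        intro v hv
        have h2 := (hmem (pos v)).mpr ⟨v, rfl, hv⟩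
        rw [List.isEmpty_iff] at h1
        rw [h1] at h2
        simp at h2
      · right
        obtain ⟨v, rfl, hv⟩ := (hmem k).mp hk
        refine ⟨v, hv, fun hc => ?_⟩
        rw [(hstep v hv).mpr hc] at h1
        exact absurd h1 (by decide)
    · rintro (h1 | ⟨v, hv, h1⟩)
      · left
        rw [List.isEmpty_iff, List.eq_nil_iff_forall_not_mem]
        intro k hk
        obtain ⟨v, _, hv⟩ := (hmem k).mp hk
        exact h1 v hv
      · right
        refine ⟨pos v, (hmem _).mpr ⟨v, rfl, hv⟩, ?_⟩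
        rw [Bool.not_eq_true']
        by_contra hc
        rw [Bool.not_eq_false] at hc
        exact h1 ((hstep v hv).mp hc)

instance (x y : ℕ) : Decidable (Rule x y) := by unfold Rule; infer_instance

def chk (a b : ℕ) : Bool :=
  (a == 0) || (b == 0) || ((decide (4 ≤ a)) && decide (4 ≤ b)) ||
    ((ev a (a + b) (a + b + 1) true (List.range' 1 (a + b)) == decide (Rule a b)) &&
      (ev a (a + b) (a + b + 1) false (List.range' 1 (a + b)) == decide (Rule b a)))

theorem finite_check : (List.range 8).all (fun a => (List.range 8).all (fun b => chk a b)) = true := by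
  decide +kernel

theorem finite (a b : ℕ) (ha : a < 8) (hb : b < 8) (ha1 : 1 ≤ a) (hb1 : 1 ≤ b)
    (hab : a ≤ 3 ∨ b ≤ 3) :
    (ev a (a + b) (a + b + 1) true (List.range' 1 (a + b)) = true ↔ Rule a b) ∧
      (ev a (a + b) (a + b + 1) false (List.range' 1 (a + b)) = true ↔ Rule b a) := by
  have h1 := finite_check
  rw [List.all_eq_true] at h1
  have h2 := h1 a (List.mem_range.mpr ha)
  rw [List.all_eq_true] at h2
  have h3 := h2 b (List.mem_range.mpr hb)
  unfold chk at h3
  have e1 : (a == 0) = false := by rw [beq_eq_false_iff_ne]; omega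
  have e2 : (b == 0) = false := by rw [beq_eq_false_iff_ne]; omega
  have e3 : (decide (4 ≤ a) && decide (4 ≤ b)) = false := by
    rw [Bool.and_eq_false_iff, decide_eq_false_iff_not, decide_eq_false_iff_not]; omega
  rw [e1, e2, e3, Bool.false_or, Bool.false_or, Bool.false_or, Bool.and_eq_true, beq_iff_eq,
    beq_iff_eq] at h3
  rw [h3.1, h3.2, decide_eq_true_iff, decide_eq_true_iff]
  exact ⟨Iff.rfl, Iff.rfl⟩

end Pool.Agent.helper13.MD
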